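import Pool.Agent.Lib.ALL.Iface
import Pool.Agent.Lib.LU1_h15.Basic

/-!
# PROJECT ALL, row 7I: X + Y + Z give embedded local uniformization (real valuations)
-/

set_option autoImplicit false

namespace Pool.Agent.ALL

open Pool.Agent.H15JM (RVal)
open Pool.Agent.LU1 (VPos locv FracIs fixO)

universe u

variable {k Ω : Type u} [Field k] [Field Ω] [Algebra k Ω] {v : RVal Ω} {D : ℕ}

namespace W

/-! ## Units and monomials -/

theorem chi_zero (F : FR k v D) : F.χ 0 = 1 := by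
  have h1 := F.χ_add 0 F.Γ.zero_mem 0 F.Γ.zero_mem
  rw [add_zero] at h1
  exact (mul_right_cancel₀ (F.χ_ne 0 F.Γ.zero_mem) (by rw [one_mul]; exact h1)).symm

theorem un_one (F : FR k v D) : F.Un 1 := ⟨F.R.one_mem, one_ne_zero, v.map_one⟩

theorem un_mul {F : FR k v D} {f g : Ω} (hf : F.Un f) (hg : F.Un g) : F.Un (f * g) :=
  ⟨F.R.mul_mem hf.1 hg.1, mul_ne_zero hf.2.1 hg.2.1, by
    rw [v.map_mul hf.2.1 hg.2.1, hf.2.2, hg.2.2, add_zero]⟩

theorem un_inv {F : FR k v D} {f : Ω} (hf : F.Un f) : F.Un f⁻¹ :=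
  ⟨F.loc f hf.1 hf.2.1 hf.2.2, inv_ne_zero hf.2.1, by
    rw [v.map_inv hf.2.1, hf.2.2, neg_zero]⟩

theorem mono_iff {F : FR k v D} {f : Ω} :
    F.Mono f ↔ ∃ γ ∈ F.Γ, ∃ u, F.Un u ∧ f = F.χ γ * u := by
  constructor
  · rintro ⟨h1, h2, h3⟩
    exact ⟨v f, h2, _, h3, by rw [mul_div_cancel₀ _ (F.χ_ne _ h2)]⟩
  · rintro ⟨γ, hγ, u, hu, rfl⟩
    have hne := mul_ne_zero (F.χ_ne γ hγ) hu.2.1
    have hv : v (F.χ γ * u) = γ := by
      rw [v.map_mul (F.χ_ne γ hγ) hu.2.1, F.χ_val γ hγ, hu.2.2, add_zero]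
    refine ⟨hne, by rw [hv]; exact hγ, ?_⟩
    rw [hv, mul_div_cancel_left₀ _ (F.χ_ne γ hγ)]
    exact hu

theorem mono_mul {F : FR k v D} {f g : Ω} (hf : F.Mono f) (hg : F.Mono g) : F.Mono (f * g) := by
  obtain ⟨γ, hγ, u, hu, rfl⟩ := mono_iff.1 hf
  obtain ⟨δ, hδ, w, hw, rfl⟩ := mono_iff.1 hg
  exact mono_iff.2 ⟨γ + δ, F.Γ.add_mem hγ hδ, u * w, un_mul hu hw, by
    rw [F.χ_add γ hγ δ hδ, mul_mul_mul_comm]⟩

theorem mono_un {F : FR k v D} {f : Ω} (hf : F.Un f) : F.Mono f :=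
  mono_iff.2 ⟨0, F.Γ.zero_mem, f, hf, by rw [chi_zero, one_mul]⟩

/-- A monomial over a coarser frame, with coefficients in a smaller ring, is a monomial. -/
theorem mono_of_monoIn {F C : FR k v D} (hΓ : ∀ γ ∈ F.Γ, γ ∈ C.Γ)
    (hχ : ∀ γ ∈ F.Γ, C.Un (F.χ γ / C.χ γ)) {S : Subalgebra k Ω} (hS : S ≤ C.R) {f : Ω}
    (hf : F.MonoIn S f) : C.Mono f := by
  obtain ⟨h0, h1, h2⟩ := hf
  have h3 : F.χ (v f) ≠ 0 := F.χ_ne _ h1
  have h4 : C.χ (v f) ≠ 0 := C.χ_ne _ (hΓ _ h1)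
  have hu : C.Un (f / F.χ (v f)) :=
    ⟨hS h2, div_ne_zero h0 h3, by rw [v.map_div h0 h3, F.χ_val _ h1, sub_self]⟩
  have e : f / C.χ (v f) = f / F.χ (v f) * (F.χ (v f) / C.χ (v f)) := by
    field_simp
  refine ⟨h0, hΓ _ h1, ?_⟩
  rw [e]
  exact un_mul hu (hχ _ h1)

/-! ## Integral closures -/

theorem icl_mono {R R' : Subalgebra k Ω} (h : R ≤ R') (E : IntermediateField k Ω) :
    icl R E ≤ icl R' E := by
  rintro a ⟨ha, hi⟩
  refine ⟨ha, ?_⟩
  obtain ⟨P, hP, hP0⟩ := hi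
  refine ⟨P.map (Subalgebra.inclusion h).toRingHom, hP.map _, ?_⟩
  rw [Polynomial.eval₂_map]
  exact hP0

theorem ICl_mono {R R' : Subalgebra k Ω} (h : R ≤ R') (E : IntermediateField k Ω) :
    ICl v R E ≤ ICl v R' E := LU1.locv_mono (icl_mono h E)

theorem icl_mono' (R : Subalgebra k Ω) {E E' : IntermediateField k Ω} (h : E ≤ E') :
    icl R E ≤ icl R E' := fun _ ha => ⟨h ha.1, ha.2⟩

theorem mem_icl_of_mem {R : Subalgebra k Ω} {E : IntermediateField k Ω} {f : Ω} (hf : f ∈ R)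
    (hE : f ∈ E) : f ∈ icl R E :=
  ⟨hE, by simpa using (isIntegral_algebraMap (R := R) (A := Ω) (x := ⟨f, hf⟩))⟩

theorem ICl_le (v : RVal Ω) (R : Subalgebra k Ω) (E : IntermediateField k Ω) :
    ∀ f ∈ ICl v R E, f ∈ E := by
  rintro f ⟨a, ha, b, hb, -, -, rfl⟩
  exact div_mem ha.1 hb.1

/-- If the elements of `R'` are quotients `a / b`, `a, b ∈ R`, with denominators in a multiplicative
set `Q` of elements of `R`, every element integral over `R'` is the quotient of an element integral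
over `R` by an element of `Q`. -/
theorem exists_den {R R' : Subalgebra k Ω} (Q : Ω → Prop) (hQ1 : Q 1)
    (hQm : ∀ s t, Q s → Q t → Q (s * t)) (hQR : ∀ s, Q s → s ∈ R) (hQ0 : ∀ s, Q s → s ≠ 0)
    (hden : ∀ f ∈ R', ∃ a ∈ R, ∃ b, Q b ∧ f = a / b) {g : Ω} (hg : IsIntegral R' g) :
    ∃ b, Q b ∧ IsIntegral R (b * g) := by
  classical
  obtain ⟨P, hP, hP0⟩ := hg
  choose a ha b hb hab using fun i : ℕ => hden (P.coeff i : Ω) (P.coeff i).2
  -- a common denominator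
  have hprod : ∀ s : Finset ℕ, Q (∏ i ∈ s, b i) := by
    intro s
    induction s using Finset.induction_on with
    | empty => rw [Finset.prod_empty]; exact hQ1
    | insert i s hi ih => rw [Finset.prod_insert hi]; exact hQm _ _ (hb i) ih
  set β : Ω := ∏ i ∈ Finset.range (P.natDegree + 1), b i with hβ
  have hQβ : Q β := hprod _
  have hcoef : ∀ i ≤ P.natDegree, β * (P.coeff i : Ω) ∈ R := by
    intro i hi
    have h1 : β = b i * ∏ j ∈ (Finset.range (P.natDegree + 1)).erase i, b j := by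
      rw [hβ, Finset.mul_prod_erase _ _ (Finset.mem_range.2 (Nat.lt_succ_of_le hi))]
    have h2 : β * (P.coeff i : Ω) = a i * ∏ j ∈ (Finset.range (P.natDegree + 1)).erase i, b j := by
      rw [h1, hab i]
      have := hQ0 _ (hb i)
      field_simp
    rw [h2]
    exact R.mul_mem (ha i) (hQR _ (hprod _))
  refine ⟨β, hQβ, ?_⟩
  -- the equation of `β g`
  set d := P.natDegree with hd
  have hβR : β ∈ R := hQR _ hQβ
  let c : ℕ → R := fun i =>
    if h : i < d then ⟨β ^ (d - i) * (P.coeff i : Ω), by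
      have h3 : d - i = (d - i - 1) + 1 := by omega
      rw [h3, pow_succ, mul_assoc]
      exact R.mul_mem (R.pow_mem hβR _) (hcoef i h.le)⟩ else 1
  have hc : ∀ i < d, ((c i : R) : Ω) = β ^ (d - i) * (P.coeff i : Ω) := by
    intro i hi
    simp only [c, dif_pos hi]
  have hsum : g ^ d + ∑ i ∈ Finset.range d, (P.coeff i : Ω) * g ^ i = 0 := by
    have h4 : Polynomial.eval₂ (algebraMap R' Ω) g P = 0 := hP0
    rw [Polynomial.eval₂_eq_sum_range, Finset.sum_range_succ] at h4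
    have h5 : P.coeff P.natDegree = 1 := hP.coeff_natDegree
    rw [h5, map_one, one_mul] at h4
    rw [add_comm]
    exact h4
  let Q' : Polynomial R := Polynomial.X ^ d + ∑ i ∈ Finset.range d, Polynomial.C (c i) *
    Polynomial.X ^ i
  have hQ' : Q'.Monic := by
    apply Polynomial.monic_X_pow_add
    rw [Polynomial.degree_lt_iff_coeff_zero]
    intro m hm
    rw [Polynomial.finsetSum_coeff]
    refine Finset.sum_eq_zero fun i hi => ?_
    rw [Polynomial.coeff_C_mul_X_pow, if_neg]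
    have := Finset.mem_range.1 hi
    omega
  refine ⟨Q', hQ', ?_⟩
  have h6 : Polynomial.eval₂ (algebraMap R Ω) (β * g) Q' =
      (β * g) ^ d + ∑ i ∈ Finset.range d, ((c i : R) : Ω) * (β * g) ^ i := by
    simp only [Q', Polynomial.eval₂_add, Polynomial.eval₂_X_pow, Polynomial.eval₂_finsetSum,
      Polynomial.eval₂_mul, Polynomial.eval₂_C]
    rfl
  rw [h6]
  have h7 : ∀ i ∈ Finset.range d, ((c i : R) : Ω) * (β * g) ^ i =
      β ^ d * ((P.coeff i : Ω) * g ^ i) := by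
    intro i hi
    have hi' := Finset.mem_range.1 hi
    rw [hc i hi', mul_pow]
    have : β ^ d = β ^ (d - i) * β ^ i := by rw [← pow_add]; congr 1; omega
    rw [this]; ring
  rw [Finset.sum_congr rfl h7, ← Finset.mul_sum, mul_pow, ← mul_add, hsum, mul_zero]

end W

open W in
/-- **7I**: blocks X, Y, Z give embedded local uniformization. -/
theorem embAll_of (k : Type u) [Field k] (p n : ℕ) (hX : XStmt k p n) (hY : YStmt k p n)
    (hZ : ZStmt k p n) : EmbAll k n := by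
  classical
  intro Ω _ _ _ v r D h hr hn E hfg halg Z hZ0 hZE
  obtain ⟨F, K, N, hfd, hgal, H, Q, Q', hXD⟩ := hX Ω v r D h hr hn E halg Z hZ0 hZE
  obtain ⟨F₁, hsame, hF₁, κ, M, hM, hord⟩ := hXD.ord
  obtain ⟨F', F₁', hle, hle₁, hsame', hR', hmono⟩ :=
    hY Ω v r D h hr hn F F₁ hsame (Q * Q') κ M hord hM
  -- the elements of `F'.R` are quotients of elements of `F.R`
  have hF'K : ∀ f ∈ F'.R, f ∈ K := by
    intro f hf
    obtain ⟨a, ha, b, hb, -, rfl⟩ := hle.den f hf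
    exact div_mem (hXD.frac.1 a ha) (hXD.frac.1 b hb)
  have hNK : ∀ f ∈ K, f ∈ N.restrictScalars k := by
    intro f hf
    rw [IntermediateField.mem_restrictScalars]
    exact N.algebraMap_mem ⟨f, hf⟩
  have hEN : ∀ f ∈ E, f ∈ N.restrictScalars k := by
    intro f hf
    rw [← hXD.fix, LU1.mem_fixO] at hf
    obtain ⟨n, rfl, -⟩ := hf
    rw [IntermediateField.mem_restrictScalars]
    exact n.2
  have hF'int : F'.R ≤ ICl v F'.R (N.restrictScalars k) := fun f hf =>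
    LU1.le_locv _ (mem_icl_of_mem hf (hNK f (hF'K f hf)))
  have hinv : ∀ f ∈ ICl v F'.R (N.restrictScalars k), f ≠ 0 → v f = 0 →
      f⁻¹ ∈ ICl v F'.R (N.restrictScalars k) := fun f hf h0 h1 => LU1.locv_inv hf h0 h1
  have hF₁' : F₁'.R ≤ ICl v F'.R (N.restrictScalars k) := by
    rw [hR']
    refine LU1.locv_le (Algebra.adjoin_le ?_) hinv
    rintro f (hf | hf)
    · exact ICl_mono hle.le _ (hF₁ hf)
    · exact hF'int hf
  have hmonoIn : F'.MonoIn (ICl v F'.R (N.restrictScalars k)) (Q * Q') := by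
    obtain ⟨h1, h2, h3⟩ := hmono
    rw [hsame'.Γ_eq] at h2
    refine ⟨h1, h2, ?_⟩
    rw [← hsame'.χ_eq _ h2]
    exact hF₁' h3.1
  obtain ⟨C, hCR, hCΓ, hCχ, hCy⟩ :=
    hZ Ω v r D h hr hn E Z F K N hfd hgal H Q Q' halg hZ0 hZE hXD F' hle hmonoIn
  -- comparison of `F` and `C`
  have hΓ : ∀ γ ∈ F.Γ, γ ∈ C.Γ := fun γ hγ => hCΓ γ (hle.Γ_le γ hγ)
  have hF'C : ∀ f ∈ F'.R, f ∈ C.R := by
    intro f hf
    rw [hCR]
    exact LU1.le_locv _ (mem_icl_of_mem hf (hXD.le (hF'K f hf)))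
  have hunC : ∀ f, F'.Un f → C.Un f := fun f hf => ⟨hF'C f hf.1, hf.2⟩
  have hχ : ∀ γ ∈ F.Γ, C.Un (F.χ γ / C.χ γ) := by
    intro γ hγ
    have h1 : F.χ γ / C.χ γ = F.χ γ / F'.χ γ * (F'.χ γ / C.χ γ) := by
      have h2 := F'.χ_ne γ (hle.Γ_le γ hγ)
      field_simp
    rw [h1]
    exact un_mul (hunC _ (hle.χ_un γ hγ)) (hCχ γ (hle.Γ_le γ hγ))
  have hICC : ICl v F.R E ≤ C.R := by
    rw [hCR]
    exact ICl_mono hle.le E
  have hmonoC : ∀ f, F'.Mono f → C.Mono f := by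
    intro f hf
    refine mono_of_monoIn hCΓ hCχ (S := C.R) le_rfl ⟨hf.1, hf.2.1, ?_⟩
    exact hF'C _ hf.2.2.1
  refine ⟨C, ⟨?_, ?_⟩, fun z hz => mono_of_monoIn hΓ hχ hICC (hXD.mono z hz), ?_⟩
  · rw [hCR]
    exact ICl_le v F'.R E
  · -- `E` is algebraic over `K`
    intro g hg
    have hNint : Algebra.IsIntegral K N := Algebra.IsIntegral.of_finite K N
    have hgi : IsIntegral K.toSubalgebra g := by
      have h1 := hNint.isIntegral (⟨g, hEN g hg⟩ : N)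
      exact h1.map (N.val)
    obtain ⟨b, hb, hbg⟩ := exists_den (R := F.R) (R' := K.toSubalgebra)
      (fun s => s ∈ F.R ∧ s ≠ 0) ⟨F.R.one_mem, one_ne_zero⟩
      (fun s t hs ht => ⟨F.R.mul_mem hs.1 ht.1, mul_ne_zero hs.2 ht.2⟩) (fun s hs => hs.1)
      (fun s hs => hs.2) (fun f hf => by
        obtain ⟨a, ha, b, hb, hb0, hab⟩ := hXD.frac.2 f hf
        exact ⟨a, ha, b, ⟨hb, hb0⟩, hab⟩) hgi
    have hbE : b ∈ E := hXD.le (hXD.frac.1 b hb.1)
    refine ⟨b * g, hICC (LU1.le_locv _ ⟨mul_mem hbE hg, hbg⟩), b, hF'C b (hle.le hb.1), hb.2, ?_⟩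
    rw [mul_div_cancel_left₀ _ hb.2]
  · intro f hf
    rw [hCR] at hf
    obtain ⟨g, ⟨hgE, hgi⟩, s, ⟨hsE, hsi⟩, hs0, hvs, rfl⟩ := hf
    have key : ∀ g ∈ E, IsIntegral F'.R g → ∃ b ∈ F.R, F'.Mono b ∧ b * g ∈ ICl v F.R E := by
      intro g hg hi
      obtain ⟨b, hb, hbg⟩ := exists_den (R := F.R) (R' := F'.R)
        (fun s => s ∈ F.R ∧ F'.Mono s) ⟨F.R.one_mem, mono_un (un_one F')⟩
        (fun s t hs ht => ⟨F.R.mul_mem hs.1 ht.1, mono_mul hs.2 ht.2⟩) (fun s hs => hs.1)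
        (fun s hs => hs.2.1) (fun f hf => by
          obtain ⟨a, ha, b, hb, hbm, hab⟩ := hle.den f hf
          exact ⟨a, ha, b, ⟨hb, hbm⟩, hab⟩) hi
      exact ⟨b, hb.1, hb.2, LU1.le_locv _ ⟨mul_mem (hXD.le (hXD.frac.1 b hb.1)) hg, hbg⟩⟩
    obtain ⟨b, hbR, hbm, hbg⟩ := key g hgE hgi
    obtain ⟨b', hbR', hbm', hbs⟩ := key s hsE hsi
    have hFI : ∀ b ∈ F.R, b ∈ ICl v F.R E := fun b hb =>
      LU1.le_locv _ (mem_icl_of_mem hb (hXD.le (hXD.frac.1 b hb)))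
    have hsC : s ∈ C.R := by
      rw [hCR]
      exact LU1.le_locv _ ⟨hsE, hsi⟩
    obtain ⟨a₁, ha₁, b₁, hb₁, hbm₁, he₁⟩ := hXD.den (b * g * b')
      (mul_mem hbg (hFI b' hbR'))
    obtain ⟨a₂, ha₂, b₂, hb₂, hbm₂, he₂⟩ := hXD.den (b * (b' * s))
      (mul_mem (hFI b hbR) hbs)
    have hm₁ : C.Mono b₁ := mono_of_monoIn hΓ hχ hICC hbm₁
    have hm₂ : C.Mono b₂ := mono_of_monoIn hΓ hχ hICC hbm₂
    have hB : C.Mono (b * (b' * s)) :=
      mono_mul (hmonoC b hbm) (mono_mul (hmonoC b' hbm') (mono_un ⟨hsC, hs0, hvs⟩))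
    have ha₂' : a₂ = b * (b' * s) * b₂ := by
      rw [he₂, div_mul_cancel₀ _ hm₂.1]
    refine ⟨a₁ * b₂, mul_mem ha₁ hb₂, b₁ * a₂, mul_mem hb₁ ha₂, ?_, ?_⟩
    · rw [ha₂']
      exact mono_mul hm₁ (mono_mul hB hm₂)
    · have h1 : b ≠ 0 := hbm.1
      have h2 : b' ≠ 0 := hbm'.1
      have h3 : b₁ ≠ 0 := hm₁.1
      have h4 : b₂ ≠ 0 := hm₂.1
      have h5 : a₁ = b * g * b' * b₁ := by rw [he₁, div_mul_cancel₀ _ h3]
      rw [ha₂', h5]
      field_simp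

theorem p0_mono : Monotone p0 := by
  refine monotone_nat_of_le_succ fun n => ?_
  unfold p0
  have h1 : n + 1 ≤ n + 1 + 1 := Nat.le_succ _
  have h2 : 2 ^ (3 * n - 1) ≤ 2 ^ (3 * (n + 1) - 1) := Nat.pow_le_pow_right (by norm_num) (by omega)
  have h3 : n.factorial ^ 2 ≤ (n + 1).factorial ^ 2 :=
    Nat.pow_le_pow_left (Nat.factorial_le (Nat.le_succ n)) 2
  exact Nat.mul_le_mul (Nat.mul_le_mul h1 h2) h3

/-- `EmbAll` in transcendence degree `0` is empty. -/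
theorem embAll_zero (k : Type u) [Field k] : EmbAll k 0 := by
  intro Ω _ _ _ v r D h hr hn
  omega

/-- **7I**: the induction over the transcendence degree. -/
theorem embAll_ind (k : Type u) [Field k] (b : ℕ → ℕ) (hb : Monotone b) (p : ℕ)
    (hX : ∀ n, b n < p → XStmt k p n) (hY : ∀ n, b n < p → EmbAll k (n - 1) → YStmt k p n)
    (hZ : ∀ n, b n < p → ZStmt k p n) : ∀ n, b n < p → EmbAll k n := by
  intro n
  induction n with
  | zero => exact fun _ => embAll_zero k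
  | succ n ih =>
    intro hn
    exact embAll_of k p (n + 1) (hX _ hn)
      (hY _ hn (ih (lt_of_le_of_lt (hb (Nat.le_succ n)) hn))) (hZ _ hn)

end Pool.Agent.ALL
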